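import Mathlib
import Pool.Agent.TH170.GS.Main
import Pool.Agent.TH170.FT.Tate

/-!
# The Tate conjecture for the powers of abelian varieties over number fields with a Frobenius element
in almost all slope types of arbitrary CM fields

Let `A` be an abelian variety over a number field, of any dimension and with arbitrary endomorphisms,
which has good reduction at some place `v`, with a residue field of `p ^ a` elements. Suppose that the
characteristic polynomial of the Frobenius element at `v` is the product of the minimal polynomials
of Weil numbers `π i` that generate CM fields `K i` of degree `2 g i` (`HasFrobenius`); so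
`dim A = ∑ i, g i`. Nothing is assumed about the Galois groups of the fields `K i`; they are pairwise
independent: for `i ≠ k` and all complex embeddings `φ` of `K i` and `ψ` of `K k` some automorphism
of `ℂ` is the identity on `φ (K i)` and the complex conjugation on `ψ (K k)` (this is no condition if
there is only one field).

We fix an isomorphism `ν` of the algebraic closure of `ℚ_p` with `ℂ`; it defines a `p`-adic valuation
of `ℂ`, with the value one at `p`. Let `M i` be a function with nonzero integral values, all of which
divide `n i`, on the complex embeddings of `K i`, invariant under complex conjugation. A CM type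
`Φ i` of `K i` (a choice of one element out of each complex conjugate pair of embeddings; there are
`2 ^ (g i)` types), `M i` and a real number `κ ≠ 0` prescribe the slopes `(a + κ M) / 2` (at the
embeddings in `Φ i`) and `(a - κ M) / 2` (outside of `Φ i`) of a Weil number in `K i` (`IsOfType`). If
`p` splits completely in `K i` then, by Honda and Tate, all slopes with rational values between `0`
and `a` that are symmetric in this way occur for abelian varieties over finite fields. The case
`M = 1`, `κ = a` is the case of ordinary reduction; the assumption on `M` says that `a / 2` is not a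
slope. Slopes are rational, so integral weights `M` are no restriction.

There are `2 ^ (∑ i, g i)` families of CM types `Φ i` of the fields `K i`. A family is exceptional
(`exceptionalFamilies ν K M`) if the following statement (`Holds`) is false for it: for all abelian
varieties `A` as above with Weil numbers `π i` of the slope types `Φ i`, all prime numbers `ℓ` and all
`n` and `m`, each Tate class in `H^{2 m}(A^n, ℚ_ℓ (m))` lies in the `ℚ_ℓ`-linear span of the classes of
algebraic cycles. So for the types that are not exceptional the Tate conjecture holds for all powers
of `A`, over all finite extensions.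

In the formal statement `V` is the rational Tate module with the action `ρ` of the Galois group and
the Weil pairing `ω` of a polarization (`IsTateModule`; with the semisimplicity theorem of Faltings),
`χ` is the cyclotomic character. The cohomology of `A ^ n` consists of the alternating forms on
`V ^ n`; a Tate class is a form that is fixed by a subgroup of finite index of the Galois group. The
classes of cycles of codimension `m` are given by a set `C n m`; what is used is that the Tate classes
of degree two are combinations of classes of divisors (Faltings) and that intersections of divisors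
are algebraic cycles (`IsCycleClasses`). That the absence of relations between the conjugates of the
Weil numbers of one Frobenius element implies that the Tate classes are generated in degree two was
formalized before (MP_938ce2_ag OneFrobenius, MP_c1bb77_ag OneFrobeniusTowers); new is that this
holds for almost all slope types in arbitrary CM fields. The Mumford-Tate conjecture for these
abelian varieties is MP_33b3f9_ag AlmostAllFrobeniusTypes.

The theorem bounds the number of the exceptional families: it is at most
`2 ^ (∑ i, g i) * ∑ i, ρ (K i)`. Here `ρ (K)` (`rho n g φ₀`) is described as follows. The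
automorphisms of `ℂ` act on the set of the `2 g` complex embeddings of `K` through a finite group
`G` (the Galois group of the normal closure), and so on the space `V`, of dimension `g`, of the
rational functions on this set that change their sign under complex conjugation. Then `ρ (K)` is the
sum of the numbers `w (W)` (`weight n g φ₀ W`) over the isotypic components `W` of `V`
(`components K`):

* `w (W) = 0` if `n` is odd and every minimal Galois-stable space in `W` contains a function with
  integral values whose sum over a CM type is odd;
* otherwise `w (W) = (2 d / (π g)) ^ (d / 2)` if `W` is itself a minimal space, of dimension `d`;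
* otherwise `w (W)` is the smaller of `(53 λ d / g) ^ (c / 2)` (if
  `(10 ^ 4 + 10 λ) ^ 2 λ d ≤ 2 g`; replaced by `1` if not) and
  `8 (2 d / (π g)) ^ (d / 2) (10 ^ 4 + 10 λ + 6 √(d g)) ^ (d - c)`. Here `λ = log (|G| n)`,
  `d = dim S` for the minimal spaces `S` in `W`, and `c = e + d - h`, where `e` is the dimension of
  the space of the equivariant endomorphisms of `S` and `h` the dimension of the space of the
  functions in `S` that are invariant under the stabilizer of a complex embedding.

Let `Q` be the number of the imaginary quadratic subfields of `K` and `N d` the number of the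
components `W` that are minimal spaces of dimension `d`. The second part (`RhoEstimate`) is the
estimate `ρ (K) ≤ Q / √g + 2 (N 2 + 1) / g + 3 N 3 / g ^ (3 / 2) + ∑ w (W)`, where the last sum is
over the components `W` which are not minimal, and the term `Q / √g` is omitted if `n g` is odd. The
third part (`NoMultipleComponents`) says that there are no such components if `K` is abelian over
`ℚ`, or if any two complex embeddings of `K` are exchanged by some automorphism of `ℂ` (for instance
`K = k F` for an imaginary quadratic field `k` and a totally real field `F` with this property, such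
as the fields of degree `binomial (n, m)` which belong to the sets with `m` elements of roots of a
polynomial of degree `n` with real roots and Galois group `S_n`). Always `N 3 ≤ g / 3`; if `K` is
cyclic over `ℚ` then `g` is odd or `Q = 0`, and `N 2 ≤ 2`, `N 3 = 0`.

The proof: if there are relations between the conjugates of the Weil numbers that are not generated by
those of the complex conjugate pairs, then for one of the types the sign function, multiplied by
`M`, is orthogonal to a minimal Galois-stable space. The number of these sign functions is estimated by a Fourier integral and the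
inequality of Hölder. There are in general infinitely many minimal spaces isomorphic to `S`, but
modulo a prime number `ℓ` that does not divide `|G| n` there are only about `ℓ ^ (h - e)` of them.
-/

namespace Pool.Agent.Results.MP_90d181_ag.AlmostAllFrobeniusTypes

open NumberField Module Pool.Agent.H204R3.CM Pool.Agent.H977R3.CM Pool.Agent.TH170

open Pool.Agent.H204R3.GP

/-- The Tate conjecture for all powers of the abelian varieties with a Frobenius element whose
characteristic polynomial is the product of the minimal polynomials of Weil numbers `π i` for `p ^ a`
with the slope types `Φ i`, `M i`, for the prime number `ℓ`. -/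
def HoldsAt {p : ℕ} [Fact p.Prime] (ν : PadicAlgCl p ≃+* ℂ) {I : Type} [Fintype I]
    (K : I → Type) [∀ i, Field (K i)] [∀ i, NumberField (K i)] [∀ i, IsCMField (K i)]
    (M : ∀ i, (K i →+* ℂ) → ℤ) (Φ : ∀ i, Set (K i →+* ℂ)) (a : ℕ) (π : ∀ i, K i)
    (ℓ : ℕ) [Fact ℓ.Prime] : Prop :=
  ∀ (V Γ : Type) [AddCommGroup V] [Module ℚ_[ℓ] V] [FiniteDimensional ℚ_[ℓ] V] [Group Γ]
    (ρ : Representation ℚ_[ℓ] Γ V) (χ : Γ →* ℚ_[ℓ]) (ω : V →ₗ[ℚ_[ℓ]] V →ₗ[ℚ_[ℓ]] ℚ_[ℓ])
    (D : ∀ n : ℕ, Set ((Fin n → V) [⋀^Fin 2]→ₗ[ℚ_[ℓ]] ℚ_[ℓ]))
    (C : ∀ n m : ℕ, Set ((Fin n → V) [⋀^Fin m × Fin 2]→ₗ[ℚ_[ℓ]] ℚ_[ℓ])),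
    FT.IsOfType ν a K M Φ π → FT.IsTateModule ρ χ ω → FT.IsCycleClasses ρ χ D C →
      FT.HasFrobenius ρ χ p a π → ∀ (n m : ℕ) (f : (Fin n → V) [⋀^Fin m × Fin 2]→ₗ[ℚ_[ℓ]] ℚ_[ℓ]),
        IsTateClass ρ χ m f → f ∈ Submodule.span ℚ_[ℓ] (C n m)

/-- The Tate conjecture for all powers of all abelian varieties with a Frobenius element whose
characteristic polynomial is the product of the minimal polynomials of Weil numbers with the slope
types `Φ i`, `M i`, for all prime numbers `ℓ`. -/
def Holds {p : ℕ} [Fact p.Prime] (ν : PadicAlgCl p ≃+* ℂ) {I : Type} [Fintype I]
    (K : I → Type) [∀ i, Field (K i)] [∀ i, NumberField (K i)] [∀ i, IsCMField (K i)]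
    (M : ∀ i, (K i →+* ℂ) → ℤ) (Φ : ∀ i, Set (K i →+* ℂ)) : Prop :=
  ∀ (a : ℕ) (π : ∀ i, K i) (ℓ : ℕ) [Fact ℓ.Prime], 0 < a → HoldsAt ν K M Φ a π ℓ

/-- The exceptional families of CM types. -/
def exceptionalFamilies {p : ℕ} [Fact p.Prime] (ν : PadicAlgCl p ≃+* ℂ) {I : Type} [Fintype I]
    (K : I → Type) [∀ i, Field (K i)] [∀ i, NumberField (K i)] [∀ i, IsCMField (K i)]
    (M : ∀ i, (K i →+* ℂ) → ℤ) : Set (∀ i, Set (K i →+* ℂ)) :=
  {Φ | (∀ i, IsCMType (Φ i)) ∧ ¬ Holds ν K M Φ}

/-- **The Tate conjecture for the powers of abelian varieties over number fields with a Frobenius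
element in almost all slope types of arbitrary CM fields.** -/
theorem result :
    (∀ (p : ℕ) [Fact p.Prime] (ν : PadicAlgCl p ≃+* ℂ) {I : Type} [Fintype I] (K : I → Type)
      [∀ i, Field (K i)] [∀ i, NumberField (K i)] [∀ i, IsCMField (K i)]
      (M : ∀ i, (K i →+* ℂ) → ℤ) (n g : I → ℕ) (φ₀ : ∀ i, K i →+* ℂ), PairwiseIndep K →
      (∀ i φ, M i (ComplexEmbedding.conjugate φ) = M i φ) → (∀ i, n i ≠ 0) →
      (∀ i φ, M i φ ∣ (n i : ℤ)) → (∀ i, finrank ℚ (K i) = 2 * g i) →
      ((exceptionalFamilies ν K M).ncard : ℝ) ≤
        2 ^ (∑ i, g i) * ∑ i, GS.rho (n i) (g i) (φ₀ i)) ∧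
    GS.RhoEstimate ∧ GS.NoMultipleComponents :=
  ⟨fun _ _ _ _ _ K _ _ _ M n g φ₀ hind hM hn hMn hg =>
    FT.ncard_le K M n g φ₀ hM hn hMn hg _ fun _ hΦ hnd _ _ _ _ ha _ _ _ _ _ _ _ _ _ _ _
      hπ hR hC hF n m f hf => FT.tate_of_types hind hM hΦ hnd ha hπ hR hC hF n m f hf,
    GS.rhoEstimate, GS.noMultipleComponents⟩

end Pool.Agent.Results.MP_90d181_ag.AlmostAllFrobeniusTypes
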