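import Pool.Agent.TH540.CMAb

/-!
# Abelian varieties with complex multiplication by cyclotomic fields

Let `m` be one of `3, ..., 10, 12, 14, 15, 16, 18, 20, 22, 24, 30, 36, 42`, let `K` be the field of
`m`-th roots of unity, and let `X` be an abelian variety over a number field which is isogenous, over
the algebraic closure, to a product of abelian varieties with complex multiplication by `K` or by
subfields of `K`, of arbitrary types and with arbitrary multiplicities. The following theorem gives
the Tate conjecture for `X`, in all codimensions, up to the known facts below, which are not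
formalised.

*The lines.* We may assume that `X` is the product of the abelian varieties `A(Φ)` with complex
multiplication by `K`, whose first cohomology groups are sums of lines permuted by the Galois group
of `K`, such that the Hodge types of the conjugates of one line are given by a function `Φ` on the
units modulo `m` with values `0` and `1` and `Φ (-t) + Φ t = 1` (if the type comes from a subfield of
`K`, then `A(Φ)` is a power of a smaller abelian variety). The conjugates of `Φ` are functions of
the same kind. So the Hodge classes on `X` of codimension `i` come from lists `F` of `2 * i` such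
functions, whose sum is the constant `i`. By Pohlmann the Tate classes are generated by the Hodge
classes.

*The theorem.* Every `Φ` is the type of an eigenline of the first cohomology group of the Fermat
curve of degree `m`, given by three nonzero residues `c Φ` modulo `m` with sum zero; so `A(Φ)` is
isogenous to a power of a factor of the Jacobian of this curve. And for every list `F` as above the
union of the lists `c Φ`, `Φ ∈ F`, is a member of the closure of the Hodge characters of Fermat
surfaces and of the standard characters of Aoki and Shioda, so that the Hodge classes given by `F`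
are algebraic.
-/

namespace Pool.Agent.Results.MP_90d181_ag.CyclotomicMultiplication

open Pool.Agent.H916R2

/-- The types of complex multiplication by the field of `m`-th roots of unity. -/
def CMType (m : ℕ) (Φ : (ZMod m)ˣ → ℕ) : Prop := ∀ t, Φ (-t) + Φ t = 1

/-- The list `c` of three nonzero residues modulo `m` has sum zero, and the eigenline of the Fermat
curve of degree `m` with character `c` has the type `Φ`: for all units `t` the representatives in
`{1, ..., m - 1}` of the residues `t * a`, `a ∈ c`, have sum `m * (Φ t + 1)`. -/
structure CurveLine (m : ℕ) (Φ : (ZMod m)ˣ → ℕ) (c : Multiset (ZMod m)) : Prop where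
  card_eq : Multiset.card c = 3
  zero_notMem : (0 : ZMod m) ∉ c
  sum_eq : c.sum = 0
  height_eq : ∀ t : (ZMod m)ˣ, (c.map fun a => ((t : ZMod m) * a).val).sum = m * (Φ t + 1)

theorem result (m : ℕ)
    (hm : m ∈ [3, 4, 5, 6, 7, 8, 9, 10, 12, 14, 15, 16, 18, 20, 22, 24, 30, 36, 42]) :
    ∃ c : ((ZMod m)ˣ → ℕ) → Multiset (ZMod m),
      (∀ Φ, CMType m Φ → CurveLine m Φ (c Φ)) ∧
      ∀ F : Multiset ((ZMod m)ˣ → ℕ), F ≠ 0 → (∀ Φ ∈ F, CMType m Φ) →
        (∀ t, 2 * (F.map fun Φ => Φ t).sum = Multiset.card F) →
        Generated m (SurfaceCharacter m) (F.map c).join := by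
  classical
  have hz : NeZero m := ⟨by rintro rfl; simp at hm⟩
  have hch : ∀ Φ : (ZMod m)ˣ → ℕ, ∃ c : Multiset (ZMod m), CMType m Φ →
      Multiset.card c = 3 ∧ (0 : ZMod m) ∉ c ∧ c.sum = 0 ∧
        ∀ t, TH540.Ht m c t = m * (Φ t + 1) := by
    intro Φ
    by_cases h : CMType m Φ
    · obtain ⟨c, hc⟩ := TH540.types_list hm Φ h
      exact ⟨c, fun _ => hc⟩
    · exact ⟨0, fun h' => absurd h' h⟩
  choose c hc using hch
  refine ⟨c, fun Φ hΦ => ?_, fun F hne hF hsum => ?_⟩
  · obtain ⟨h1, h2, h3, h4⟩ := hc Φ hΦ
    exact ⟨h1, h2, h3, h4⟩
  · refine Families.main m (Nat.pos_of_ne_zero (NeZero.ne m)) (TH540.good_list hm) _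
      (TH540.isHodge_types (fun Φ hΦ => hc Φ (hF Φ hΦ)) hsum) ?_
    intro h
    apply hne
    have h1 : Multiset.card (F.map c).join = 3 * Multiset.card (F.map c) := by
      apply TH540.join_card
      intro e he
      obtain ⟨Φ, hΦ, rfl⟩ := Multiset.mem_map.mp he
      exact (hc Φ (hF Φ hΦ)).1
    rw [h, Multiset.card_zero, Multiset.card_map] at h1
    exact Multiset.card_eq_zero.mp (by omega)

end Pool.Agent.Results.MP_90d181_ag.CyclotomicMultiplication
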