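import Mathlib
import Pool.Agent.TH118.TP.Forms

/-!
# The Tate conjecture for products with powers of an abelian variety with endomorphism ring `ℤ`

Let `A` and `B` be abelian varieties over a number field `k`; `V = V_ℓ(A)` and `N = V_ℓ(B)` are the
rational Tate modules, with the actions `ρ` and `τ` of the Galois group `Γ` and the cyclotomic
character `χ`; `ω` is the Weil pairing of a polarization of `A`.  The Tate classes of codimension `j`
on the products `A ^ n × B ^ m` are, by the Künneth formula and since the cohomology of an abelian
variety is the exterior algebra of the dual of the Tate module, the alternating `2 j`-forms `φ` on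
`V ^ n ⊕ N ^ m` with `φ(g x) = χ(g) ^ j φ(x)` for `g` in a subgroup of finite index; their components
are multilinear forms on `V ^ a × N ^ b`, `a + b = 2 j`, with this property (`IsTateTwo`).

Hypotheses.

* `hirr`: the representation on `V` tensored with the algebraic closure of `ℚ_ℓ` is irreducible under
  all subgroups of finite index.  By the theorem of Faltings this means that the ring of the
  endomorphisms of `A` over the algebraic closure of `k` is `ℤ`.
* `γ` is an element of the Galois group which acts trivially on `N` and on the roots of unity (for
  example an element of the inertia group of a place prime to `ℓ` where `B` has good reduction), and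
  which acts on `V` (`GoodElement`)
  - by a unipotent map different from the identity, with `(γ - 1) ^ 2 = 0` and `γ - 1` of rank at most
    two (for example if the reduction of `A` at the place is semiabelian, of toric rank one or two),
  - or with finite order and a small space of variation: for `a = 1` or `a = -1`
    the eigenvalues different from `a` are simple, and their number `c`, which is not zero, and the
    dimension `d` of the eigenspace for `a` satisfy `c ^ 2 < 2 d`,
  - or with finite order and eigenvalues which split in an isolated way (`IsolatedFinite`); for
    example if the orders of the eigenvalues in two nonempty sets are prime to each other, all the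
    eigenvalues in one of the sets are simple and the quotients of pairs are different.
  In the cases of finite order (potentially good reduction) it is also assumed that there is an
  element of the Galois group (a Frobenius element) with two eigenvalues on `V` whose quotient is not a
  root of unity (`Hyperbolic`).

Theorem.  All Tate classes on the products `A ^ n × B ^ m` are linear combinations of products of
divisor classes on `A ^ n` (the class of the polarization in two of the coordinates; `contr`) and of
Tate classes on `B ^ m`.  The linear combination is a finite sum over the ways `e t` of dividing the `a`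
variables from `V` in pairs; it is empty if `a` is odd.

So the Tate conjecture holds for all the varieties `A ^ n × B ^ m` if it holds for the powers
of `B`, for example if `B` is a product of elliptic curves, or an abelian variety such that the Tate classes
on its powers are generated by divisor classes.  Iterating the theorem one gets the Tate conjecture
for all products of abelian varieties `A_1, A_2, …` with endomorphism ring `ℤ` if each `A_i` has such
a place where the following ones have good reduction, and for products of such with `B`.

The proof.  The operators `Y` on `V` for which there is an operator `Y'` on the space of forms on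
`N` such that the pair is compatible with all equivariant multilinear maps form a Lie algebra
normalized by the group, which contains operators that are not scalar, since some Frobenius element is
hyperbolic.  The eigenvectors of the conjugation by `γ` for the eigenvalues different from `1` are in
the part with `Y' = 0`, because `γ` acts trivially on `N`.  The Lie algebra of the operators killing
all the equivariant maps contains a nilpotent operator of rank at most two and so it is the
symplectic one, and the first fundamental theorem gives the contractions.
-/

namespace Pool.Agent.Results.MP_90d181_ag.ProductsWithPowers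

open Pool.Agent.H204R3.SP Pool.Agent.TH118.TP

theorem result (ℓ : ℕ) [Fact ℓ.Prime]
    -- the rational Tate modules of `A` and `B` with the action of the Galois group
    {V N : Type} [AddCommGroup V] [Module ℚ_[ℓ] V] [FiniteDimensional ℚ_[ℓ] V]
    [AddCommGroup N] [Module ℚ_[ℓ] N] [FiniteDimensional ℚ_[ℓ] N] {Γ : Type} [Group Γ]
    (ρ : Representation ℚ_[ℓ] Γ V) (τ : Representation ℚ_[ℓ] Γ N) (χ : Γ →* ℚ_[ℓ])
    -- the Weil pairing
    (ω : V →ₗ[ℚ_[ℓ]] V →ₗ[ℚ_[ℓ]] ℚ_[ℓ]) (halt : ∀ v, ω v v = 0)
    (hnd : ∀ u, (∀ v, ω u v = 0) → u = 0)
    (hω : ∀ g x y, ω (ρ g x) (ρ g y) = χ g * ω x y)
    -- irreducibility
    (hirr : StronglyIrr (bcr ρ (AlgebraicClosure ℚ_[ℓ])))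
    -- the element of the inertia group
    (γ : Γ) (hχ : χ γ = 1) (hτ : τ γ = 1)
    (hγ : GoodElement (bcr ρ (AlgebraicClosure ℚ_[ℓ])) γ)
    -- a Tate class
    {a b j : ℕ} (hab : a + b = 2 * j)
    (φ : MultilinearMap ℚ_[ℓ] (fun _ : Fin a => V)
      (MultilinearMap ℚ_[ℓ] (fun _ : Fin b => N) ℚ_[ℓ]))
    (hφ : IsTateTwo ρ τ χ j φ) :
    ∃ (n m : ℕ) (e : Fin n → (Fin m × Fin 2 ≃ Fin a))
      (ψ : Fin n → MultilinearMap ℚ_[ℓ] (fun _ : Fin b => N) ℚ_[ℓ]),
      (∀ t, IsTate τ χ (j - m) (ψ t)) ∧ ∀ x y, φ x y = ∑ t, contr ω (e t) x * ψ t y :=
  tate_product (Ω := AlgebraicClosure ℚ_[ℓ]) halt hnd hω hirr hχ hτ hγ hab hφ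

end Pool.Agent.Results.MP_90d181_ag.ProductsWithPowers
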